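import Pool.Agent.KT3.StmtsC

/-! KT3 squad (MP_e54c4c_gt), row AMC: the class `AN` is a mixing class. -/

set_option autoImplicit false

open Matrix Filter Topology

namespace Pool.Agent.KT3.H68

open Pool.Agent.PFS Pool.Agent.PFJ Pool.Agent.NBT

theorem amc (ane : AneStmt) (ani : AniStmt) (anc : AncStmt) (lmn : LmnStmt) (mix : MixStmt) :
    AmcStmt := by
  intro n C Γ d q hH hq hex hno
  obtain ⟨w0, N0, hw0, hN0, hd0⟩ := lmn n C Γ d q hH hq hex hno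
  refine ⟨⟨w0, N0, ane n C Γ d q hH w0 N0 hw0 hN0 hd0⟩, ?_, ?_, ?_, ?_, ?_⟩
  · rintro w ⟨N, hN⟩
    exact hN.wl.pes
  · rintro w ⟨N, hN⟩ g hg s hs
    exact ⟨_, (ani n C Γ d q hH w N hN).2.1 g hg s hs⟩
  · rintro w ⟨N, hN⟩ r hr
    exact ⟨N, (ani n C Γ d q hH w N hN).1 r hr⟩
  · intro x w hx hlim hC
    choose N hN using hx
    obtain ⟨-, N', -, -, h⟩ := anc n C Γ d q hH x N w hN hlim hC
    exact ⟨N', h⟩
  · intro w hw
    obtain ⟨ε, hε, h⟩ := mix n C Γ d q hH hq hno w hw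
    refine ⟨ε, hε, ?_⟩
    rintro x z ⟨N, hN⟩ ⟨N', hN'⟩ hxz
    exact h x z N N' hN hN' hxz

end Pool.Agent.KT3.H68
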