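import Pool.Agent.Helper68_KT3.RAI

/-! KT3 squad (MP_e54c4c_gt), row DEN: a member with a dense raising orbit. -/

set_option autoImplicit false

open Matrix Filter Topology

namespace Pool.Agent.KT3.H68

open Pool.Agent.PFS Pool.Agent.PFJ Pool.Agent.NBT

theorem cont_at1 {n : ℕ} (t : ℝ) (i : Fin 3) :
    Continuous fun w : Fin 3 → V n => at1 w t i := by
  by_cases hi : i = 1
  · subst hi
    have h1 : (fun w : Fin 3 → V n => at1 w t 1) = fun w => Real.exp t • w 1 := by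
      funext w
      exact at1_1 w t
    rw [h1]
    exact (continuous_apply (1 : Fin 3)).const_smul (Real.exp t)
  · have h1 : (fun w : Fin 3 → V n => at1 w t i) = fun w => w i := by
      funext w
      unfold at1
      rw [Function.update_of_ne hi]
    rw [h1]
    exact continuous_apply i

theorem den (tra : TraStmt) : DenStmt := by
  classical
  intro n C Γ d hH X hLM
  have hC : PCone C := hH.toPCone
  have hsumC : ∀ w, X w → ∑ i, w i ∈ C := fun w hw => (hLM.wl w hw).pes.1.sum_mem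
  let S : Set (Fin 3 → V n) := {w | X w}
  let O : Set (Fin 3 → V n) := {w | ∑ i, w i ∈ C}
  have hOo : IsOpen O := hC.isOpen.preimage (continuous_finsetSum _ fun i _ => continuous_apply i)
  have hcl : S = closure S ∩ O := by
    apply Set.Subset.antisymm
    · intro w hw
      exact ⟨subset_closure hw, hsumC w hw⟩
    · rintro w ⟨h1, h2⟩
      obtain ⟨x, hx, hlim⟩ := mem_closure_iff_seq_limit.mp h1
      exact hLM.cld x w hx (fun i => (tendsto_pi_nhds.mp hlim) i) h2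
  have hloc : IsLocallyClosed S := by
    rw [hcl]
    exact isClosed_closure.isLocallyClosed.inter hOo.isLocallyClosed
  have : LocallyCompactSpace S := hloc.locallyCompactSpace
  obtain ⟨w0, hw0⟩ := hLM.ne
  have : Nonempty S := ⟨⟨w0, hw0⟩⟩
  obtain ⟨a, ha⟩ := TopologicalSpace.exists_dense_seq S
  let R : ℕ × ℕ × ℕ → Set S := fun q => {u | ∃ t : ℝ, (q.2.2 : ℝ) ≤ t ∧ ∃ g ∈ Γ, ∃ s : ℝ, 0 < s ∧
    ∀ i, ‖s • act g ((at1 u.1 t) i) - (a q.1).1 i‖ < 1 / ((q.2.1 : ℝ) + 1)}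
  have hRo : ∀ q, IsOpen (R q) := by
    intro q
    rw [isOpen_iff_mem_nhds]
    rintro u ⟨t, ht, g, hg, s, hs, h⟩
    have h1 : IsOpen {u : S | ∀ i, ‖s • act g ((at1 u.1 t) i) - (a q.1).1 i‖ <
        1 / ((q.2.1 : ℝ) + 1)} := by
      have h2 : {u : S | ∀ i, ‖s • act g ((at1 u.1 t) i) - (a q.1).1 i‖ <
        1 / ((q.2.1 : ℝ) + 1)} = ⋂ i, {u : S | ‖s • act g ((at1 u.1 t) i) - (a q.1).1 i‖ <
        1 / ((q.2.1 : ℝ) + 1)} := by
        ext u
        simp
      rw [h2]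
      refine isOpen_iInter_of_finite fun i => isOpen_lt ?_ continuous_const
      exact ((((CC.act_continuous g).comp ((cont_at1 t i).comp
        continuous_subtype_val)).const_smul s).sub continuous_const).norm
    exact Filter.mem_of_superset (h1.mem_nhds h) fun u' hu' => ⟨t, ht, g, hg, s, hs, hu'⟩
  have hRd : ∀ q, Dense (R q) := by
    intro q
    rw [Metric.dense_iff]
    intro x r hr
    obtain ⟨u, hu, hclose, t, ht, g, hg, s, hs, h⟩ := tra n C Γ d hH X hLM (a q.1).1 x.1 (a q.1).2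
      x.2 (1 / ((q.2.1 : ℝ) + 1)) r (q.2.2 : ℝ) (by positivity) hr
    refine ⟨⟨u, hu⟩, ?_, t, ht, g, hg, s, hs, h⟩
    rw [Metric.mem_ball, Subtype.dist_eq, dist_pi_lt_iff hr]
    intro i
    rw [dist_eq_norm]
    exact hclose i
  obtain ⟨u, hu⟩ := (dense_iInter_of_isOpen hRo hRd).nonempty
  refine ⟨u.1, u.2, fun w hw ε T hε => ?_⟩
  obtain ⟨j, hj⟩ := ha.exists_dist_lt (⟨w, hw⟩ : S) (half_pos hε)
  obtain ⟨k, hk⟩ := exists_nat_one_div_lt (half_pos hε)
  obtain ⟨N, hN⟩ := exists_nat_ge T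
  obtain ⟨t, ht, g, hg, s, hs, h⟩ := Set.mem_iInter.mp hu (j, k, N)
  refine ⟨t, hN.trans ht, g, hg, s, hs, fun i => ?_⟩
  have h1 := h i
  rw [Subtype.dist_eq, dist_pi_lt_iff (half_pos hε)] at hj
  have h2 := hj i
  rw [dist_eq_norm, norm_sub_rev] at h2
  have h3 : s • act g ((at1 u.1 t) i) - w i =
      (s • act g ((at1 u.1 t) i) - (a j).1 i) + ((a j).1 i - w i) := by abel
  rw [h3]
  refine (norm_add_le _ _).trans_lt ?_
  have h4 : ‖s • act g ((at1 u.1 t) i) - (a j).1 i‖ < ε / 2 := h1.trans hk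
  have h5 : ‖(a j).1 i - w i‖ < ε / 2 := h2
  linarith

end Pool.Agent.KT3.H68
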