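import Pool.Agent.KT3.StmtsD
import Pool.Agent.Helper13_NBT.IBF
import Pool.Agent.Helper64_NBT.IBI

/-! KT3 squad (MP_e54c4c_gt), row LMN: Lemma N. -/

set_option autoImplicit false

open Matrix Filter Topology

namespace Pool.Agent.KT3.H68

open Pool.Agent.PFS Pool.Agent.PFJ Pool.Agent.NBT

theorem lmn_compl : (I02 : Finset (Fin 3))ᶜ = {1} := by decide

/-- a box of the second pair has no small vectors -/
theorem lmn_dim {n : ℕ} {C : Set (V n)} {Γ : Subgroup (GL (Fin n) ℝ)} (hC : PCone C)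
    {w : Fin 3 → V n} (hw : IsPES C Γ w) {L N : Submodule ℝ (V n)} (hL : IB C w I02 L)
    (hN : ∀ y, y ∈ N ↔ Pool.Agent.PCO.Sml C (w 1) y) :
    Module.finrank ℝ L + Module.finrank ℝ N ≤ n := by
  obtain ⟨⟨hfL, -, -⟩, -, hB3, -⟩ := (Pool.Agent.NBT.H13.ibf n C hC 3 w hw.1).1 I02 L hL
  have hfC : ∑ i, w i ∈ C := hw.1.sum_mem
  have hbot : L ⊓ N = ⊥ := by
    rw [Submodule.eq_bot_iff]
    intro y hy
    obtain ⟨hyL, hyN⟩ := Submodule.mem_inf.mp hy
    rw [hN] at hyN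
    have hkey : ∀ τ : ℝ, 0 < τ → ∀ κ : ℝ, ∀ z ∈ L, κ • w 1 + τ • (∑ i, w i) + z ∈ closure C →
        z + τ • fS w I02 ∈ closure C := by
      intro τ hτ κ z hz h
      refine (hB3 _ (L.add_mem hz (L.smul_mem _ hfL)) (fun _ => κ + τ) ?_).1
      have h1 : z + τ • fS w I02 + ∑ m ∈ I02ᶜ, (κ + τ) • w m =
          κ • w 1 + τ • (∑ i, w i) + z := by
        rw [lmn_compl, Finset.sum_singleton, ← fS_add_compl w I02, lmn_compl, fS_single, add_smul,
          smul_add]
        abel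
      rw [h1]
      exact h
    refine hC.salient y ?_ ?_
    · refine cl_of_eps (f := fS w I02) fun τ hτ => ?_
      obtain ⟨κ, -, -, h2⟩ := hyN _ hfC τ hτ
      exact hkey τ hτ κ y hyL h2
    · refine cl_of_eps (f := fS w I02) fun τ hτ => ?_
      obtain ⟨κ, -, h1, -⟩ := hyN _ hfC τ hτ
      rw [sub_eq_add_neg] at h1
      exact hkey τ hτ κ (-y) (L.neg_mem hyL) h1
  have h1 := Submodule.finrank_sup_add_finrank_inf_eq L N
  rw [hbot, finrank_bot, add_zero] at h1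
  have h2 : Module.finrank ℝ ↥(L ⊔ N) ≤ Module.finrank ℝ (V n) := Submodule.finrank_le _
  have h4 : Module.finrank ℝ (V n) = n := by
    rw [Module.finrank_fintype_fun_eq_card, Fintype.card_fin]
  omega

theorem lmn (phe : PheStmt) (lfi : LfiStmt) (lfm : LfmStmt) (lmd : LmdStmt) (sms : SmsStmt)
    (lsa : LsaStmt) (mnl : MnlStmt) (den : DenStmt) (rai : RaiStmt) : LmnStmt := by
  classical
  intro n C Γ d q hH hq hex hno
  have hcc : CC C Γ := hH.toCC
  have hC : PCone C := hcc.toPCone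
  have hA : ∀ w, AD C Γ d q w → ∀ N : Submodule ℝ (V n),
      (∀ y, y ∈ N ↔ Pool.Agent.PCO.Sml C (w 1) y) → Module.finrank ℝ N + q ≤ n := by
    intro w hw N hN
    obtain ⟨L, hL, hqL⟩ := hw.bx (w 0) (lfm n C Γ d hH w hw.wl).1
    have h1 : up w (w 0) = w := Function.update_eq_self 0 w
    rw [h1] at hL
    have h2 := lmn_dim hC hw.wl.pes hL hN
    omega
  by_contra hcon
  have hB : ∀ w, AD C Γ d q w → ∀ N : Submodule ℝ (V n),
      (∀ y, y ∈ N ↔ Pool.Agent.PCO.Sml C (w 1) y) → Module.finrank ℝ N + q + 1 ≤ n := by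
    intro w hw N hN
    have h1 := hA w hw N hN
    have h2 : Module.finrank ℝ N + q ≠ n := fun h => hcon ⟨w, N, hw, hN, h⟩
    omega
  obtain ⟨X, hX, hXs⟩ := mnl n C Γ d hH (AD C Γ d q) (lsa n C Γ d q hH) hex
  obtain ⟨u, hu, hden⟩ := den n C Γ d hH X hX
  have huA := hXs u hu
  obtain ⟨N, hN⟩ := sms n C hC (u 1) (huA.wl.pes.1.cl 1)
  have huN := hB u huA N hN
  have hbig : ∀ W, X W → q + 1 ≤ Module.finrank ℝ (BI C W I02) := by
    intro W hW
    have h1 := rai n C Γ hcc u W huA.wl.pes (hXs W hW).wl.pes (hden W hW) N hN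
    omega
  obtain ⟨W, hW⟩ := hX.ne
  have hWA := hXs W hW
  obtain ⟨φ, hφ⟩ := phe n C Γ 3 hH.toHI.toHK W hWA.wl.pes 0
  refine hno (lmd n C Γ d hH W hWA.wl (q + 1) (by omega) ?_)
  intro x hx
  obtain ⟨-, hmv⟩ := lfm n C Γ d hH W hWA.wl
  obtain ⟨hxW, -, -, -, -, -, hxφ⟩ := hmv x hx
  have hφx : 0 < φ x := (hxφ φ hφ).1
  have hx' : Lf C W ((φ x)⁻¹ • x) :=
    ((lfi n C Γ d hH W hWA.wl x).2.2 _ (inv_pos.mpr hφx)).mpr hx
  have hφ1 : φ ((φ x)⁻¹ • x) = 1 := by
    rw [map_smul, smul_eq_mul, inv_mul_cancel₀ hφx.ne']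
  have h1 := hbig _ (hX.lf W hW φ hφ _ hx' hφ1)
  have h2 : (fun i => (Function.update (fun _ => (1 : ℝ)) (0 : Fin 3) (φ x)⁻¹) i • up W x i) =
      up W ((φ x)⁻¹ • x) := by
    funext i
    by_cases hi : i = 0
    · subst hi
      rw [Function.update_self]
      show (φ x)⁻¹ • Function.update W 0 x 0 = Function.update W 0 ((φ x)⁻¹ • x) 0
      rw [Function.update_self, Function.update_self]
    · rw [Function.update_of_ne hi, one_smul]
      show Function.update W 0 x i = Function.update W 0 ((φ x)⁻¹ • x) i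
      rw [Function.update_of_ne hi, Function.update_of_ne hi]
  have h3 := (Pool.Agent.NBT.H64.ibi n C Γ hcc 3 (up W x) hxW.pes.1.cl).1
    (Function.update (fun _ => (1 : ℝ)) (0 : Fin 3) (φ x)⁻¹) (fun i => by
      by_cases hi : i = 0
      · subst hi
        rw [Function.update_self]
        exact inv_pos.mpr hφx
      · rw [Function.update_of_ne hi]
        exact one_pos) I02
  rw [h2] at h3
  rw [← h3]
  exact h1

end Pool.Agent.KT3.H68
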