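import Pool.Agent.KT3.StmtsD
import Pool.Agent.Helper80_NBT.ZLX

/-! KT3 squad (MP_e54c4c_gt), row RAI: limits of the raising orbit have large faces. -/

set_option autoImplicit false

open Matrix Filter Topology

namespace Pool.Agent.KT3.H68

open Pool.Agent.PFS Pool.Agent.PFJ Pool.Agent.NBT

theorem at1_0 {n : ℕ} (w : Fin 3 → V n) (t : ℝ) : at1 w t 0 = w 0 := by
  unfold at1
  rw [Function.update_of_ne (by decide)]

theorem at1_1 {n : ℕ} (w : Fin 3 → V n) (t : ℝ) : at1 w t 1 = Real.exp t • w 1 := by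
  unfold at1
  rw [Function.update_self]

theorem at1_2 {n : ℕ} (w : Fin 3 → V n) (t : ℝ) : at1 w t 2 = w 2 := by
  unfold at1
  rw [Function.update_of_ne (by decide)]

theorem at1_sum {n : ℕ} (w : Fin 3 → V n) (t : ℝ) :
    ∑ i, at1 w t i = ∑ i, w i + (Real.exp t - 1) • w 1 := by
  rw [Fin.sum_univ_three, Fin.sum_univ_three, at1_0, at1_1, at1_2, sub_smul, one_smul]
  abel

theorem rai : RaiStmt := by
  intro n C Γ hcc u W hu hW happ N hN
  have hC : PCone C := hcc.toPCone
  obtain ⟨B, hB, hnrm⟩ := Pool.Agent.NBT.H80.nrm hC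
  have hucl : ∀ i, u i ∈ closure C := hu.1.cl
  have hWcl : ∀ i, W i ∈ closure C := hW.1.cl
  have huC : ∑ i, u i ∈ C := hu.1.sum_mem
  have hWC : ∑ i, W i ∈ C := hW.1.sum_mem
  have hpos : ∀ m : ℕ, (0 : ℝ) < 1 / ((m : ℝ) + 1) := fun m => by positivity
  choose t ht g hg s hs hclose using fun m : ℕ => happ (1 / ((m : ℝ) + 1)) m (hpos m)
  have ht0 : ∀ m, 0 ≤ t m := fun m => (Nat.cast_nonneg m).trans (ht m)
  have hlim : ∀ i, Tendsto (fun m => s m • act (g m) (at1 u (t m) i)) atTop (𝓝 (W i)) := by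
    intro i
    rw [tendsto_iff_norm_sub_tendsto_zero]
    exact squeeze_zero (fun m => norm_nonneg _) (fun m => (hclose m i).le)
      tendsto_one_div_add_atTop_nhds_zero_nat
  have hsum : Tendsto (fun m => s m • act (g m) (∑ i, at1 u (t m) i)) atTop (𝓝 (∑ i, W i)) := by
    have h3 : Tendsto (fun m => ∑ i, s m • act (g m) (at1 u (t m) i)) atTop (𝓝 (∑ i, W i)) :=
      tendsto_finsetSum _ fun i _ => hlim i
    refine h3.congr fun m => ?_
    rw [CC.act_sum, Finset.smul_sum]
  have hge : ∀ m, (∑ i, at1 u (t m) i) - ∑ i, u i ∈ closure C := by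
    intro m
    rw [at1_sum, add_sub_cancel_left]
    refine hC.cl_smul (hucl 1) ?_
    have := Real.one_le_exp (ht0 m)
    linarith
  have hup : ∀ m (M : ℝ) (z : V n), 0 ≤ M → M • (∑ i, u i) + z ∈ closure C →
      M • (∑ i, at1 u (t m) i) + z ∈ closure C := by
    intro m M z hM hz
    have h5 : M • (∑ i, at1 u (t m) i) + z =
        M • ((∑ i, at1 u (t m) i) - ∑ i, u i) + (M • (∑ i, u i) + z) := by
      rw [smul_sub]
      abel
    rw [h5]
    exact hC.cl_add (hC.cl_smul (hge m) hM) hz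
  have hbP : ∀ v ∈ (⊤ : Submodule ℝ (V n)), ∃ B' : ℝ,
      ∀ᶠ m in atTop, ‖Pool.Agent.NBT.H80.sl (s m) (g m) v‖ ≤ B' := by
    intro v _
    obtain ⟨M, hM, hM1, hM2⟩ := absorb_two hC huC v
    refine ⟨B * (M * (‖∑ i, W i‖ + 1)), ?_⟩
    have h1 : ∀ᶠ m in atTop, ‖s m • act (g m) (∑ i, at1 u (t m) i)‖ <
        ‖∑ i, W i‖ + 1 := (hsum.norm).eventually_lt_const (by linarith)
    filter_upwards [h1] with m hm
    have h6 : M • (∑ i, at1 u (t m) i) - v ∈ closure C := by
      rw [sub_eq_add_neg]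
      refine hup m M _ hM.le ?_
      rw [← sub_eq_add_neg]
      exact subset_closure hM1
    have h7 : M • (∑ i, at1 u (t m) i) + v ∈ closure C := hup m M _ hM.le (subset_closure hM2)
    have h8 := (hcc.sact_cl_iff (hg m) (hs m)).mpr h6
    have h9 := (hcc.sact_cl_iff (hg m) (hs m)).mpr h7
    rw [CC.act_sub, CC.act_smul, smul_sub, smul_comm (s m) M] at h8
    rw [CC.act_add, CC.act_smul, smul_add, smul_comm (s m) M] at h9
    have h10 := hnrm _ _ h8 h9
    rw [Pool.Agent.NBT.H80.sl_apply]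
    refine h10.trans ?_
    rw [norm_smul, Real.norm_of_nonneg hM.le]
    gcongr
  obtain ⟨φ, P, hφ, hPlim⟩ := Pool.Agent.NBT.H80.lin_sub ⊤
    (fun m => Pool.Agent.NBT.H80.sl (s m) (g m)) hbP
  have hlimP : ∀ x, Tendsto (fun m => s (φ m) • act (g (φ m)) x) atTop (𝓝 (P x)) := fun x =>
    hPlim id tendsto_id (fun _ => x) x (fun _ => Submodule.mem_top) tendsto_const_nhds
  have hlim' : ∀ i, Tendsto (fun m => s (φ m) • act (g (φ m)) (at1 u (t (φ m)) i)) atTop
      (𝓝 (W i)) := fun i => (hlim i).comp hφ.tendsto_atTop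
  have hsum' : Tendsto (fun m => s (φ m) • act (g (φ m)) (∑ i, at1 u (t (φ m)) i)) atTop
      (𝓝 (∑ i, W i)) := hsum.comp hφ.tendsto_atTop
  have hP0 : P (u 0) = W 0 := by
    have h1 := hlim' 0
    simp only [at1_0] at h1
    exact tendsto_nhds_unique (hlimP (u 0)) h1
  have hP2 : P (u 2) = W 2 := by
    have h1 := hlim' 2
    simp only [at1_2] at h1
    exact tendsto_nhds_unique (hlimP (u 2)) h1
  have htt : Tendsto (fun m => t (φ m)) atTop atTop := by
    refine tendsto_atTop_mono (fun m => ht (φ m)) ?_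
    exact tendsto_natCast_atTop_atTop.comp hφ.tendsto_atTop
  have hP1 : P (u 1) = 0 := by
    have h1 := hlim' 1
    simp only [at1_1] at h1
    have h3 : Tendsto (fun m => Real.exp (-(t (φ m)))) atTop (𝓝 0) :=
      Real.tendsto_exp_neg_atTop_nhds_zero.comp htt
    have h4 := h3.smul h1
    rw [zero_smul] at h4
    refine tendsto_nhds_unique (hlimP (u 1)) (h4.congr fun m => ?_)
    rw [CC.act_smul, smul_comm (s (φ m)), smul_smul, ← Real.exp_add, neg_add_cancel,
      Real.exp_zero, one_smul]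
  have hPf : P (∑ i, u i) = fS W I02 := by
    rw [Fin.sum_univ_three, map_add, map_add, hP0, hP1, hP2, add_zero,
      fS_pair W (by decide : (0 : Fin 3) ≠ 2)]
  have hPpos : ∀ x ∈ closure C, P x ∈ closure C := fun x hx =>
    isClosed_closure.mem_of_tendsto (hlimP x)
      (Eventually.of_forall fun m => (hcc.sact_cl_iff (hg _) (hs _)).2 hx)
  have hPmem : ∀ x, P x ∈ BI C W I02 := by
    intro x
    obtain ⟨M, _, h1, h2⟩ := absorb_two hC huC x
    have h3 := hPpos _ (subset_closure h1)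
    have h4 := hPpos _ (subset_closure h2)
    rw [map_sub, map_smul, hPf] at h3
    rw [map_add, map_smul, hPf] at h4
    exact fce hC hWcl h3 h4
  have hker : LinearMap.ker P ≤ N := by
    intro x hx
    have h0 : P x = 0 := hx
    rw [hN]
    intro x0 hx0 τ hτ
    obtain ⟨M, hM, hM'⟩ := hC.absorb hx0 (∑ i, u i)
    have hδ : 0 < τ / M := div_pos hτ hM
    have h1 : τ • x0 - (τ / M) • ∑ i, u i ∈ closure C := by
      have h2 := hC.cl_smul (subset_closure hM') hδ.le
      rw [smul_sub, smul_smul, div_mul_cancel₀ _ hM.ne'] at h2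
      exact h2
    have hlx : Tendsto (fun m => s (φ m) • act (g (φ m)) x) atTop (𝓝 0) := by
      have := hlimP x
      rwa [h0] at this
    have hδC : (τ / M) • ∑ i, W i ∈ C := hC.smul _ hWC _ hδ
    have hm1 : Tendsto (fun m => s (φ m) • act (g (φ m))
        ((τ / M) • (∑ i, at1 u (t (φ m)) i) - x)) atTop (𝓝 ((τ / M) • ∑ i, W i)) := by
      have h3 := (hsum'.const_smul (τ / M)).sub hlx
      rw [sub_zero] at h3
      refine h3.congr fun m => ?_
      rw [CC.act_sub, CC.act_smul, smul_sub, smul_comm (s (φ m))]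
    have hm2 : Tendsto (fun m => s (φ m) • act (g (φ m))
        ((τ / M) • (∑ i, at1 u (t (φ m)) i) + x)) atTop (𝓝 ((τ / M) • ∑ i, W i)) := by
      have h3 := (hsum'.const_smul (τ / M)).add hlx
      rw [add_zero] at h3
      refine h3.congr fun m => ?_
      rw [CC.act_add, CC.act_smul, smul_add, smul_comm (s (φ m))]
    obtain ⟨m, h5, h6⟩ := ((hm1.eventually (hC.isOpen.mem_nhds hδC)).and
      (hm2.eventually (hC.isOpen.mem_nhds hδC))).exists
    have h7 : (τ / M) • (∑ i, at1 u (t (φ m)) i) - x ∈ closure C :=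
      subset_closure ((hcc.sact_mem_iff (hg _) (hs _)).1 h5)
    have h8 : (τ / M) • (∑ i, at1 u (t (φ m)) i) + x ∈ closure C :=
      subset_closure ((hcc.sact_mem_iff (hg _) (hs _)).1 h6)
    rw [at1_sum] at h7 h8
    have h9 : (τ / M) • u 1 ∈ closure C := hC.cl_smul (hucl 1) hδ.le
    refine ⟨τ / M * Real.exp (t (φ m)), mul_pos hδ (Real.exp_pos _), ?_, ?_⟩
    · have h10 := hC.cl_add (hC.cl_add h7 h1) h9
      have h11 : (τ / M) • (∑ i, u i + (Real.exp (t (φ m)) - 1) • u 1) - x +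
          (τ • x0 - (τ / M) • ∑ i, u i) + (τ / M) • u 1 =
          (τ / M * Real.exp (t (φ m))) • u 1 + τ • x0 - x := by
        module
      rwa [h11] at h10
    · have h10 := hC.cl_add (hC.cl_add h8 h1) h9
      have h11 : (τ / M) • (∑ i, u i + (Real.exp (t (φ m)) - 1) • u 1) + x +
          (τ • x0 - (τ / M) • ∑ i, u i) + (τ / M) • u 1 =
          (τ / M * Real.exp (t (φ m))) • u 1 + τ • x0 + x := by
        module
      rwa [h11] at h10
  have hrange : LinearMap.range P ≤ BI C W I02 := by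
    rintro _ ⟨x, rfl⟩
    exact hPmem x
  have h1 := LinearMap.finrank_range_add_finrank_ker P
  have h2 := Submodule.finrank_mono hrange
  have h3 := Submodule.finrank_mono hker
  have h4 : Module.finrank ℝ (V n) = n := by
    rw [Module.finrank_fintype_fun_eq_card, Fintype.card_fin]
  omega

end Pool.Agent.KT3.H68
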