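import Pool.Agent.KT3.StmtsD

/-! KT3 squad (MP_e54c4c_gt), row ZPB: Baire on the leaf. -/

set_option autoImplicit false

open Matrix Filter Topology

namespace Pool.Agent.KT3.H68

open Pool.Agent.PFS Pool.Agent.PFJ Pool.Agent.NBT

theorem zpb (zpm : ZpmStmt) (zpc : ZpcStmt) (lfl : LflStmt) (lfm : LfmStmt) : ZpbStmt := by
  classical
  intro n C Γ d hH w hw φ hφ δ hyp
  have hC : PCone C := hH.toPCone
  have hwcl : ∀ i, w i ∈ closure C := hw.pes.1.cl
  have hφc : Continuous φ := φ.continuous_of_finiteDimensional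
  let ℓ : Set (V n) := {x | Lf C w x ∧ φ x = 1}
  have hℓ : IsClosed ℓ := by
    rw [← isSeqClosed_iff_isClosed]
    intro z y hz hzy
    have h1 : φ y = 1 := by
      have h2 : Tendsto (fun m => φ (z m)) atTop (𝓝 (φ y)) := (hφc.tendsto y).comp hzy
      have h3 : (fun m => φ (z m)) = fun _ => (1 : ℝ) := by
        funext m
        exact (hz m).2
      rw [h3] at h2
      exact (tendsto_nhds_unique h2 tendsto_const_nhds)
    refine ⟨?_, h1⟩
    exact lfl n C Γ d hH (fun _ => w) w (fun _ => hw) hw (fun _ => tendsto_const_nhds) z y φ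
      (fun m => (hz m).1) hzy hφ (by rw [h1]; exact one_pos)
  have : LocallyCompactSpace ℓ := hℓ.isLocallyClosed.locallyCompactSpace
  have : Nonempty ℓ := ⟨⟨w 0, (lfm n C Γ d hH w hw).1, hφ.one⟩⟩
  let Z : ℕ → ℕ → Set ℓ := fun j T => {x | Zp C w δ (1 / ((j : ℝ) + 1)) ((j : ℝ) + 2) (T : ℝ) x.1}
  have hZc : ∀ j T, IsClosed (Z j T) := by
    intro j T
    rw [← isSeqClosed_iff_isClosed]
    intro z y hz hzy
    have h1 : (0 : ℝ) ≤ (j : ℝ) := Nat.cast_nonneg j
    exact zpc n C Γ d hH w hw (fun m => (z m).1) y.1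
      ((continuous_subtype_val.tendsto y).comp hzy) y.2.1 δ _ _ _ (by positivity) (by linarith) hz
  have hZu : ∀ j, ⋃ T, Z j T = Set.univ := by
    intro j
    rw [Set.eq_univ_iff_forall]
    intro x
    obtain ⟨T, hT⟩ := hyp x.1 x.2.1 x.2.2 (1 / ((j : ℝ) + 1)) ((j : ℝ) + 2) (by positivity)
      (by positivity)
    exact Set.mem_iUnion.mpr ⟨T, hT⟩
  have hD : ∀ j, Dense (⋃ T, interior (Z j T)) := fun j =>
    dense_iUnion_interior_of_closed (hZc j) (hZu j)
  have hO : ∀ j, IsOpen (⋃ T, interior (Z j T)) := fun j =>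
    isOpen_iUnion fun T => isOpen_interior
  obtain ⟨x0, hx0⟩ := (dense_iInter_of_isOpen hO hD).nonempty
  refine ⟨x0.1, x0.2.1, x0.2.2, fun ε M hε hM => ?_⟩
  obtain ⟨j1, hj1⟩ := exists_nat_one_div_lt hε
  obtain ⟨j2, hj2⟩ := exists_nat_ge M
  obtain ⟨T, hT⟩ := Set.mem_iUnion.mp (Set.mem_iInter.mp hx0 (j1 + j2))
  obtain ⟨r, hr, hball⟩ := Metric.isOpen_iff.mp isOpen_interior x0 hT
  refine ⟨T, r, hr, fun x hx hx1 hxr => ?_⟩
  have h1 : (⟨x, hx, hx1⟩ : ℓ) ∈ Z (j1 + j2) T := by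
    refine interior_subset (hball ?_)
    rw [Metric.mem_ball, Subtype.dist_eq, dist_eq_norm]
    exact hxr
  have h2 : (0 : ℝ) ≤ j1 := Nat.cast_nonneg _
  have h3 : (0 : ℝ) ≤ j2 := Nat.cast_nonneg _
  refine zpm n C hC w x hx.cl hwcl δ _ _ _ _ _ _ ?_ (by linarith) ?_ le_rfl h1
  · refine le_trans ?_ hj1.le
    push_cast
    exact one_div_le_one_div_of_le (by positivity) (by linarith)
  · push_cast
    linarith

end Pool.Agent.KT3.H68
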